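import Mathlib

/-!
Lemma K: a combinatorial linear program with knapsack constraints.
-/

namespace Pool.Agent.Helper1.LK

open Finset

variable {ι : Type*} [DecidableEq ι]

/-- Expectation of `g (Z)`, where `Z` is `Z₀` and the longest prefix of total cost less than `β` of a random
order of `R`. -/
noncomputable def ex (c : ι → ℝ) (g : Finset ι → ℝ) : ℕ → Finset ι → ℝ → Finset ι → ℝ
  | 0, _, _, Z => g Z
  | n + 1, R, β, Z => (1 / (R.card : ℝ)) * ∑ j ∈ R, if c j < β then ex c g n (R.erase j) (β - c j) (insert j Z) else g Z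

theorem ex_sum {κ : Type*} (c : ι → ℝ) (s : Finset κ) (a : κ → ℝ) (g : κ → Finset ι → ℝ) (n : ℕ) :
    ∀ (R : Finset ι) (β : ℝ) (Z : Finset ι),
      ex c (fun Z => ∑ x ∈ s, a x * g x Z) n R β Z = ∑ x ∈ s, a x * ex c (g x) n R β Z := by
  induction n with
  | zero => intro R β Z; rfl
  | succ n ih =>
    intro R β Z
    simp only [ex, ih]
    have h1 : ∀ j ∈ R, (if c j < β then ∑ x ∈ s, a x * ex c (g x) n (R.erase j) (β - c j) (insert j Z)
        else ∑ x ∈ s, a x * g x Z) =
        ∑ x ∈ s, a x * (if c j < β then ex c (g x) n (R.erase j) (β - c j) (insert j Z) else g x Z) := by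
      intro j _
      split_ifs <;> rfl
    rw [Finset.sum_congr rfl h1, Finset.sum_comm, Finset.mul_sum]
    refine Finset.sum_congr rfl fun x _ => ?_
    rw [← Finset.mul_sum]
    ring

theorem ex_le (c : ι → ℝ) (g : Finset ι → ℝ) (hg : ∀ Z, ∑ i ∈ Z, c i < 1 → g Z ≤ 1) (n : ℕ) :
    ∀ (R : Finset ι) (β : ℝ) (Z : Finset ι), R.card = n → Disjoint R Z → ∑ i ∈ Z, c i < 1 → ∑ i ∈ Z, c i + β ≤ 1 →
      ex c g n R β Z ≤ 1 := by
  induction n with
  | zero => intro R β Z _ _ hZ _; exact hg Z hZ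
  | succ n ih =>
    intro R β Z hR hd hZ hβ
    simp only [ex]
    have h1 : ∑ j ∈ R, (if c j < β then ex c g n (R.erase j) (β - c j) (insert j Z) else g Z) ≤ ∑ j ∈ R, (1 : ℝ) := by
      refine Finset.sum_le_sum fun j hj => ?_
      split_ifs with h
      · have hjZ : j ∉ Z := Finset.disjoint_left.1 hd hj
        refine ih _ _ _ ?_ ?_ ?_ ?_
        · rw [Finset.card_erase_of_mem hj, hR]; rfl
        · rw [Finset.disjoint_insert_right]
          exact ⟨Finset.notMem_erase j R, hd.mono_left (Finset.erase_subset j R)⟩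
        · rw [Finset.sum_insert hjZ]; linarith
        · rw [Finset.sum_insert hjZ]; linarith
      · exact hg Z hZ
    rw [Finset.sum_const, nsmul_eq_mul, mul_one] at h1
    have h2 : (0 : ℝ) < R.card := by rw [hR]; positivity
    rw [one_div, inv_mul_le_iff₀ h2, mul_one]
    exact h1

/-- `1` if `Z` meets `X`, `0` otherwise. -/
noncomputable def hit (X Z : Finset ι) : ℝ := if Disjoint X Z then 0 else 1

theorem ex_nonneg (c : ι → ℝ) (g : Finset ι → ℝ) (hg : ∀ Z, 0 ≤ g Z) (n : ℕ) :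
    ∀ (R : Finset ι) (β : ℝ) (Z : Finset ι), 0 ≤ ex c g n R β Z := by
  induction n with
  | zero => intro R β Z; exact hg Z
  | succ n ih =>
    intro R β Z
    simp only [ex]
    refine mul_nonneg (by positivity) (Finset.sum_nonneg fun j _ => ?_)
    split_ifs
    · exact ih _ _ _
    · exact hg Z

theorem hit_nonneg (X Z : Finset ι) : 0 ≤ hit X Z := by
  unfold hit; split_ifs <;> norm_num

theorem ex_hit (c : ι → ℝ) (X : Finset ι) (n : ℕ) :
    ∀ (R : Finset ι) (β : ℝ) (Z : Finset ι), R.card = n → ¬ Disjoint X Z → ex c (hit X) n R β Z = 1 := by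
  induction n with
  | zero => intro R β Z _ h; simp [ex, hit, h]
  | succ n ih =>
    intro R β Z hR hd
    simp only [ex]
    have h1 : ∑ j ∈ R, (if c j < β then ex c (hit X) n (R.erase j) (β - c j) (insert j Z) else hit X Z) =
        ∑ j ∈ R, (1 : ℝ) := by
      refine Finset.sum_congr rfl fun j hj => ?_
      split_ifs with h
      · refine ih _ _ _ ?_ ?_
        · rw [Finset.card_erase_of_mem hj, hR]; rfl
        · intro h2
          exact hd (h2.mono_right (Finset.subset_insert j Z))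
      · simp [hit, hd]
    rw [h1, Finset.sum_const, nsmul_eq_mul, mul_one]
    have h2 : (R.card : ℝ) ≠ 0 := by rw [hR]; positivity
    field_simp

/-- The bound for the probability to miss. -/
noncomputable def psi (a : ℝ) (ci t : ℝ) : ℝ := a ^ (-(2 * max (t - ci) 0))

theorem psi_of_le {a ci t : ℝ} (h : t ≤ ci) : psi a ci t = 1 := by
  unfold psi
  rw [max_eq_right (by linarith)]
  simp

theorem miss_le (c : ι → ℝ) (hc : ∀ i, 0 ≤ c i) (X Y : Finset ι) (hY : Y.Nonempty) (a : ℝ) (ha : 1 ≤ a) (n : ℕ) :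
    ∀ (R : Finset ι) (β : ℝ) (Z : Finset ι), R.card = n → Y ⊆ R → Y ⊆ X → Disjoint X Z → Disjoint X (R \ Y) →
      ∑ j ∈ R \ Y, (a ^ (2 * c j) - 1) ≤ Y.card →
      (Y.card : ℝ) * (1 - ex c (hit X) n R β Z) ≤ ∑ i ∈ Y, psi a (c i) β := by
  have ha0 : 0 < a := by linarith
  have hx : (0 : ℝ) < Y.card := by exact_mod_cast hY.card_pos
  induction n with
  | zero =>
    intro R β Z hR hYR
    rw [Finset.card_eq_zero] at hR
    subst hR
    exact absurd (Finset.subset_empty.1 hYR) hY.ne_empty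
  | succ n ih =>
    intro R β Z hR hYR hYX hXZ hXR hsum
    have hRc : (0 : ℝ) < R.card := by rw [hR]; positivity
    set v : ι → ℝ := fun j => if c j < β then ex c (hit X) n (R.erase j) (β - c j) (insert j Z) else hit X Z with hv
    have hex : ex c (hit X) (n + 1) R β Z = (1 / (R.card : ℝ)) * ∑ j ∈ R, v j := rfl
    have hcard : (R.card : ℝ) = (R \ Y).card + Y.card := by
      have := Finset.card_sdiff_add_card_eq_card hYR
      exact_mod_cast this.symm
    -- elements of `Y`
    have hvY : ∀ j ∈ Y, 1 - v j = if c j < β then 0 else 1 := by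
      intro j hj
      simp only [hv]
      split_ifs with h
      · rw [ex_hit]
        · ring
        · rw [Finset.card_erase_of_mem (hYR hj), hR]; rfl
        · intro h2
          exact (Finset.disjoint_left.1 h2 (hYX hj)) (Finset.mem_insert_self j Z)
      · simp [hit, hXZ]
    -- elements of `R \ Y`
    have hvR : ∀ j ∈ R \ Y, (Y.card : ℝ) * (1 - v j) ≤ ∑ i ∈ Y, psi a (c i) (β - c j) := by
      intro j hj
      have hjR : j ∈ R := (Finset.mem_sdiff.1 hj).1
      have hjY : j ∉ Y := (Finset.mem_sdiff.1 hj).2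
      have hjX : j ∉ X := fun h => Finset.disjoint_left.1 hXR h hj
      simp only [hv]
      split_ifs with h
      · have hsub : (R.erase j) \ Y ⊆ R \ Y := Finset.sdiff_subset_sdiff (Finset.erase_subset j R) le_rfl
        refine ih _ _ _ ?_ ?_ hYX ?_ ?_ ?_
        · rw [Finset.card_erase_of_mem hjR, hR]; rfl
        · intro i hi
          exact Finset.mem_erase.2 ⟨fun h2 => hjY (h2 ▸ hi), hYR hi⟩
        · rw [Finset.disjoint_insert_right]
          exact ⟨hjX, hXZ⟩
        · exact hXR.mono_right hsub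
        · refine le_trans (Finset.sum_le_sum_of_subset_of_nonneg hsub fun i _ _ => ?_) hsum
          have : (1 : ℝ) ≤ a ^ (2 * c i) := Real.one_le_rpow ha (by linarith [hc i])
          linarith
      · have h1 : ∀ i ∈ Y, psi a (c i) (β - c j) = 1 := by
          intro i _
          exact psi_of_le (by linarith [hc i])
        rw [Finset.sum_congr rfl h1]
        simp [hit, hXZ]
    -- the inequality for one element `i` of `Y`
    have hone : ∀ i ∈ Y, (Y.card : ℝ) * (if c i < β then 0 else 1) + ∑ j ∈ R \ Y, psi a (c i) (β - c j) ≤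
        R.card * psi a (c i) β := by
      intro i hi
      split_ifs with h
      · have h2 : ∀ j ∈ R \ Y, psi a (c i) (β - c j) ≤ psi a (c i) β * a ^ (2 * c j) := by
          intro j _
          unfold psi
          rw [← Real.rpow_add ha0]
          refine Real.rpow_le_rpow_of_exponent_le ha ?_
          rw [max_eq_left (by linarith : (0 : ℝ) ≤ β - c i)]
          have := le_max_left (β - c j - c i) 0
          linarith
        have h3 : ∑ j ∈ R \ Y, psi a (c i) (β - c j) ≤ psi a (c i) β * ∑ j ∈ R \ Y, a ^ (2 * c j) := by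
          rw [Finset.mul_sum]
          exact Finset.sum_le_sum h2
        have h4 : ∑ j ∈ R \ Y, a ^ (2 * c j) ≤ R.card := by
          have : ∑ j ∈ R \ Y, (a ^ (2 * c j) - 1) = ∑ j ∈ R \ Y, a ^ (2 * c j) - (R \ Y).card := by
            rw [Finset.sum_sub_distrib]
            simp
          rw [this] at hsum
          rw [hcard]
          linarith
        have h5 : 0 ≤ psi a (c i) β := (Real.rpow_pos_of_pos ha0 _).le
        calc (Y.card : ℝ) * 0 + ∑ j ∈ R \ Y, psi a (c i) (β - c j) ≤ psi a (c i) β * ∑ j ∈ R \ Y, a ^ (2 * c j) := by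
              linarith
          _ ≤ psi a (c i) β * R.card := mul_le_mul_of_nonneg_left h4 h5
          _ = R.card * psi a (c i) β := mul_comm _ _
      · have h1 : psi a (c i) β = 1 := psi_of_le (not_lt.1 h)
        have h2 : ∀ j ∈ R \ Y, psi a (c i) (β - c j) = 1 := by
          intro j _
          exact psi_of_le (by linarith [hc j, not_lt.1 h])
        rw [Finset.sum_congr rfl h2, h1, hcard]
        simp only [Finset.sum_const, nsmul_eq_mul, mul_one]
        linarith
    -- assembly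
    have hsplit : ∑ j ∈ R, (1 - v j) = ∑ j ∈ R \ Y, (1 - v j) + ∑ j ∈ Y, (1 - v j) :=
      (Finset.sum_sdiff hYR).symm
    have h6 : (R.card : ℝ) * (1 - ex c (hit X) (n + 1) R β Z) = ∑ j ∈ R, (1 - v j) := by
      rw [hex, Finset.sum_sub_distrib]
      simp only [Finset.sum_const, nsmul_eq_mul, mul_one]
      field_simp
    have h7 : (Y.card : ℝ) * ∑ j ∈ R, (1 - v j) ≤ R.card * ∑ i ∈ Y, psi a (c i) β := by
      rw [hsplit, mul_add]
      have h8 : (Y.card : ℝ) * ∑ j ∈ R \ Y, (1 - v j) ≤ ∑ i ∈ Y, ∑ j ∈ R \ Y, psi a (c i) (β - c j) := by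
        rw [Finset.sum_comm, Finset.mul_sum]
        exact Finset.sum_le_sum hvR
      have h9 : (Y.card : ℝ) * ∑ j ∈ Y, (1 - v j) = ∑ i ∈ Y, (Y.card : ℝ) * (if c i < β then 0 else 1) := by
        rw [Finset.sum_congr rfl hvY, Finset.mul_sum]
      have h10 := Finset.sum_le_sum hone
      have h12 : ∑ i ∈ Y, (R.card : ℝ) * psi a (c i) β = R.card * ∑ i ∈ Y, psi a (c i) β :=
        (Finset.mul_sum _ _ _).symm
      rw [Finset.sum_add_distrib, h12, ← h9] at h10
      linarith
    have h11 : (R.card : ℝ) * ((Y.card : ℝ) * (1 - ex c (hit X) (n + 1) R β Z)) ≤ R.card * ∑ i ∈ Y, psi a (c i) β := by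
      calc (R.card : ℝ) * ((Y.card : ℝ) * (1 - ex c (hit X) (n + 1) R β Z)) =
            (Y.card : ℝ) * ((R.card : ℝ) * (1 - ex c (hit X) (n + 1) R β Z)) := by ring
        _ = (Y.card : ℝ) * ∑ j ∈ R, (1 - v j) := by rw [h6]
        _ ≤ _ := h7
    exact le_of_mul_le_mul_left h11 hRc


/-- If all of `R` is in `X`. -/
theorem ex_all (c : ι → ℝ) (X : Finset ι) (n : ℕ) (R : Finset ι) (β : ℝ) (Z : Finset ι) (hn : R.card = n + 1)
    (hRX : R ⊆ X) (hXZ : Disjoint X Z) :
    (R.card : ℝ) * ex c (hit X) (n + 1) R β Z = ∑ j ∈ R, (if c j < β then 1 else 0) := by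
  have hRc : (R.card : ℝ) ≠ 0 := by rw [hn]; positivity
  simp only [ex]
  rw [← mul_assoc, mul_one_div_cancel hRc, one_mul]
  refine Finset.sum_congr rfl fun j hj => ?_
  split_ifs with h
  · rw [ex_hit]
    · rw [Finset.card_erase_of_mem hj, hn]; rfl
    · intro h2
      exact (Finset.disjoint_left.1 h2 (hRX hj)) (Finset.mem_insert_self j Z)
  · simp [hit, hXZ]

theorem num {n h x m p C' γ ω Sβ TB F1 : ℝ} (hx : 0 < x) (hω : 0 < ω) (hm : m = 2 * p - n) (hm0 : 0 ≤ m)
    (hxp : h + x ≤ p) (hγ : 2 * γ ≤ x) (hC : x = 2 * C' * ω) (hS : n - p + (C' + γ) - h / 2 ≤ Sβ)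
    (hTB : (2 * ω / (1 + ω)) * (x * Sβ - (n - h) * γ) ≤ x * TB) (hTB0 : 0 ≤ TB)
    (hF : x - (x + 2 * γ * ω) / (1 + ω) ^ 2 ≤ x * F1) (hh : 0 ≤ h) : x ≤ TB + m * F1 := by
  have hu : 0 < 1 + ω := by linarith
  by_cases hcase : 0 ≤ (1 + ω) * (n - h - x) + m
  · have h1 : (2 * ω / (1 + ω)) * (x * (n - p + (C' + γ) - h / 2) - (n - h) * γ) ≤ x * TB := by
      refine le_trans (mul_le_mul_of_nonneg_left ?_ (by positivity)) hTB
      have := mul_le_mul_of_nonneg_left hS hx.le
      linarith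
    have h2 : m * (x - (x + 2 * γ * ω) / (1 + ω) ^ 2) ≤ m * (x * F1) := mul_le_mul_of_nonneg_left hF hm0
    have h3 : (2 * ω / (1 + ω)) * (x * (n - p + (C' + γ) - h / 2) - (n - h) * γ) +
        m * (x - (x + 2 * γ * ω) / (1 + ω) ^ 2) - x * x =
        ω * ((x - 2 * γ) * ((1 + ω) * (n - h - x) + m)) / (1 + ω) ^ 2 := by
      have hp : p = (n + m) / 2 := by linarith
      subst hp
      field_simp
      rw [hC]
      ring
    have h4 : 0 ≤ ω * ((x - 2 * γ) * ((1 + ω) * (n - h - x) + m)) / (1 + ω) ^ 2 := by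
      have : 0 ≤ x - 2 * γ := by linarith
      positivity
    have h5 : x * x ≤ x * (TB + m * F1) := by nlinarith
    exact le_of_mul_le_mul_left h5 hx
  · rw [not_le] at hcase
    have h1 : ω / (1 + ω) ≤ F1 := by
      have h2 : (x + 2 * γ * ω) / (1 + ω) ^ 2 ≤ x / (1 + ω) := by
        rw [div_le_div_iff₀ (by positivity) hu]
        nlinarith [mul_nonneg hω.le (by linarith : 0 ≤ x - 2 * γ), mul_pos hu hu]
      have h3 : x * (ω / (1 + ω)) ≤ x * F1 := by
        have h4 : x * (ω / (1 + ω)) = x - x / (1 + ω) := by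
          field_simp
          ring
        rw [h4]
        linarith
      exact le_of_mul_le_mul_left h3 hx
    have h2 : x ≤ m * (ω / (1 + ω)) := by
      rw [← mul_div_assoc, le_div_iff₀ hu]
      nlinarith
    have h3 : m * (ω / (1 + ω)) ≤ m * F1 := mul_le_mul_of_nonneg_left h1 hm0
    linarith

theorem num0 {n h x m p γ Sβ TB : ℝ} (hx : 0 < x) (hm : m = 2 * p - n) (hxp : h + x ≤ p) (hγ : 2 * γ ≤ x)
    (hS : n - p + γ - h / 2 ≤ Sβ) (hTB : 2 * (x * Sβ - (n - h) * γ) ≤ x * TB) (hTB0 : 0 ≤ TB) (hh : 0 ≤ h) :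
    x ≤ TB + m := by
  by_cases hcase : h + x ≤ n
  · have h1 : x * (n - p + γ - h / 2) ≤ x * Sβ := mul_le_mul_of_nonneg_left hS hx.le
    have h2 : 0 ≤ (x - 2 * γ) * (n - h - x) := mul_nonneg (by linarith) (by linarith)
    have h3 : x * x ≤ x * (TB + m) := by
      subst hm
      nlinarith
    exact le_of_mul_le_mul_left h3 hx
  · rw [not_le] at hcase
    linarith

/-- The probability to meet `X`, for a leftover budget of at most `1 / 2` and for the budget `1`. -/
theorem hit_bounds (c : ι → ℝ) (hc : ∀ i, 0 ≤ c i) (X S : Finset ι) (hS : ∀ i ∈ S, c i < 1 / 2) (ω : ℝ) (hω : 0 < ω)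
    (hY : (X ∩ S).Nonempty) (hsum : 2 * (∑ j ∈ S \ X, c j) * ω ≤ (X ∩ S).card) (β : ℝ) (Z : Finset ι)
    (hXZ : Disjoint X Z) :
    (0 ≤ β → β ≤ 1 / 2 → (2 * ω / (1 + ω)) * ((X ∩ S).card * β - ∑ i ∈ X ∩ S, c i) ≤
        (X ∩ S).card * ex c (hit X) S.card S β Z) ∧
      ((X ∩ S).card - ((X ∩ S).card + 2 * (∑ i ∈ X ∩ S, c i) * ω) / (1 + ω) ^ 2 ≤
        ((X ∩ S).card : ℝ) * ex c (hit X) S.card S 1 Z) := by
  set Y := X ∩ S with hYdef
  have hu : 0 < 1 + ω := by linarith
  have ha : 1 ≤ 1 + ω := by linarith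
  have hSY : S \ Y = S \ X := by
    ext i
    simp only [hYdef, Finset.mem_sdiff, Finset.mem_inter]
    tauto
  have hx : (0 : ℝ) < Y.card := by exact_mod_cast hY.card_pos
  have hbern : ∀ i ∈ S, (1 + ω) ^ (2 * c i) ≤ 1 + 2 * c i * ω := by
    intro i hi
    have := rpow_one_add_le_one_add_mul_self (s := ω) (by linarith) (p := 2 * c i) (by linarith [hc i])
      (by linarith [hS i hi])
    linarith
  have hms := fun β => miss_le c hc X Y hY (1 + ω) ha S.card S β Z rfl Finset.inter_subset_right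
    Finset.inter_subset_left hXZ (by rw [hSY]; exact Finset.disjoint_sdiff) (by
      rw [hSY]
      have h5 : ∑ j ∈ S \ X, ((1 + ω) ^ (2 * c j) - 1) ≤ ∑ j ∈ S \ X, 2 * c j * ω := by
        refine Finset.sum_le_sum fun j hj => ?_
        have := hbern j (Finset.mem_sdiff.1 hj).1
        linarith
      rw [← Finset.sum_mul, ← Finset.mul_sum] at h5
      exact h5.trans hsum)
  constructor
  · intro hβ0 hβ
    have h1 : ∀ i ∈ Y, psi (1 + ω) (c i) β ≤ 1 - 2 * (β - c i) * (ω / (1 + ω)) := by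
      intro i hi
      unfold psi
      set r := 2 * max (β - c i) 0 with hr
      have hr0 : 0 ≤ r := by have := le_max_right (β - c i) 0; linarith
      have hr1 : r ≤ 1 := by
        have : max (β - c i) 0 ≤ 1 / 2 := max_le (by linarith [hc i]) (by norm_num)
        linarith
      have hr2 : 2 * (β - c i) ≤ r := by have := le_max_left (β - c i) 0; linarith
      have h2 : (1 + ω) ^ (-r) = (1 + -(ω / (1 + ω))) ^ r := by
        rw [Real.rpow_neg hu.le, ← Real.inv_rpow hu.le]
        congr 1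
        field_simp
        ring
      have h3 : -1 ≤ -(ω / (1 + ω)) := by
        have : ω / (1 + ω) ≤ 1 := by rw [div_le_one hu]; linarith
        linarith
      have h4 := rpow_one_add_le_one_add_mul_self h3 hr0 hr1
      have h5 : 0 ≤ ω / (1 + ω) := by positivity
      have h6 := mul_le_mul_of_nonneg_right hr2 h5
      rw [h2]
      linarith
    have h2 := Finset.sum_le_sum h1
    have h3 : ∑ i ∈ Y, (1 - 2 * (β - c i) * (ω / (1 + ω))) = Y.card - (2 * ω / (1 + ω)) * (Y.card * β - ∑ i ∈ Y, c i) := by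
      rw [Finset.sum_sub_distrib, ← Finset.sum_mul, ← Finset.mul_sum, Finset.sum_sub_distrib]
      simp only [Finset.sum_const, nsmul_eq_mul, mul_one]
      ring
    have h4 := hms β
    linarith
  · have h1 : ∀ i ∈ Y, psi (1 + ω) (c i) 1 ≤ (1 + 2 * c i * ω) / (1 + ω) ^ 2 := by
      intro i hi
      have hiS : i ∈ S := (Finset.mem_inter.1 hi).2
      unfold psi
      rw [max_eq_left (by linarith [hS i hiS] : (0 : ℝ) ≤ 1 - c i)]
      have h2 : -(2 * (1 - c i)) = 2 * c i - (2 : ℕ) := by push_cast; ring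
      rw [h2, Real.rpow_sub hu, Real.rpow_natCast]
      exact div_le_div_of_nonneg_right (hbern i hiS) (by positivity)
    have h2 := Finset.sum_le_sum h1
    have h3 : ∑ i ∈ Y, (1 + 2 * c i * ω) / (1 + ω) ^ 2 = (Y.card + 2 * (∑ i ∈ Y, c i) * ω) / (1 + ω) ^ 2 := by
      rw [← Finset.sum_div, Finset.sum_add_distrib, ← Finset.sum_mul, ← Finset.mul_sum]
      simp only [Finset.sum_const, nsmul_eq_mul, mul_one]
    have h4 := hms 1
    linarith


section main

variable [Fintype ι]

/-- The items of cost at least `1 / 2`. -/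
noncomputable def Bg (c : ι → ℝ) : Finset ι := Finset.univ.filter fun i => 1 / 2 ≤ c i

/-- The items of cost less than `1 / 2`. -/
noncomputable def Sm (c : ι → ℝ) : Finset ι := Finset.univ.filter fun i => c i < 1 / 2

omit [DecidableEq ι] in
theorem disj_Sm_Bg (c : ι → ℝ) : Disjoint (Sm c) (Bg c) := by
  rw [Finset.disjoint_left]
  intro i hi hj
  have h1 := (Finset.mem_filter.1 hi).2
  have h2 := (Finset.mem_filter.1 hj).2
  linarith

theorem sum_split (c : ι → ℝ) (f : ι → ℝ) : ∑ i, f i = ∑ i ∈ Bg c, f i + ∑ i ∈ Sm c, f i := by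
  rw [← Finset.sum_union (disj_Sm_Bg c).symm]
  refine Finset.sum_congr ?_ fun _ _ => rfl
  ext i
  simp only [Finset.mem_univ, Finset.mem_union, Bg, Sm, Finset.mem_filter, true_and, true_iff]
  exact le_or_gt _ _

theorem cover (c : ι → ℝ) (h0 : ∀ i, 0 < c i) (h1 : ∀ i, c i < 1) (p : ℝ) (hC : ∑ i, c i ≤ p) (X : Finset ι)
    (hX : (X.card : ℝ) ≤ p) :
    (X.card : ℝ) ≤ ∑ b ∈ Bg c, ex c (hit X) (Sm c).card (Sm c) (1 - c b) {b} +
      (2 * p - (Bg c).card) * ex c (hit X) (Sm c).card (Sm c) 1 ∅ := by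
  set B := Bg c with hB
  set S := Sm c with hSdef
  have hBc : ∀ b ∈ B, 1 / 2 ≤ c b := fun b hb => (Finset.mem_filter.1 hb).2
  have hSc : ∀ i ∈ S, c i < 1 / 2 := fun i hi => (Finset.mem_filter.1 hi).2
  have hCsplit : ∑ b ∈ B, c b + ∑ i ∈ S, c i ≤ p := by
    have := sum_split c c
    linarith
  have hSnn : 0 ≤ ∑ i ∈ S, c i := Finset.sum_nonneg fun i _ => (h0 i).le
  have hm0 : 0 ≤ 2 * p - (B.card : ℝ) := by
    have h2 : ∑ b ∈ B, (1 / 2 : ℝ) ≤ ∑ b ∈ B, c b := Finset.sum_le_sum hBc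
    rw [Finset.sum_const, nsmul_eq_mul] at h2
    linarith
  have hhn : ∀ Z, 0 ≤ hit X Z := hit_nonneg X
  set F : ι → ℝ := fun b => ex c (hit X) S.card S (1 - c b) {b} with hF
  set F1 : ℝ := ex c (hit X) S.card S 1 ∅ with hF1
  have hFnn : ∀ b, 0 ≤ F b := fun b => ex_nonneg c _ hhn _ _ _ _
  have hF1nn : 0 ≤ F1 := ex_nonneg c _ hhn _ _ _ _
  set Y := X ∩ S with hY
  set XB := X ∩ B with hXB
  have hsplit : ∑ b ∈ B, F b = ∑ b ∈ B \ X, F b + XB.card := by
    rw [← Finset.sum_sdiff (Finset.inter_subset_right : XB ⊆ B)]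
    have e1 : B \ XB = B \ X := by
      ext i
      simp only [hXB, Finset.mem_sdiff, Finset.mem_inter]
      tauto
    have e2 : ∑ b ∈ XB, F b = ∑ b ∈ XB, (1 : ℝ) := by
      refine Finset.sum_congr rfl fun b hb => ?_
      simp only [hF]
      refine ex_hit c X _ _ _ _ rfl ?_
      rw [Finset.disjoint_singleton_right, not_not]
      exact (Finset.mem_inter.1 hb).1
    rw [e1, e2]
    simp
  have hXcard : (X.card : ℝ) = XB.card + Y.card := by
    have e1 : X = XB ∪ Y := by
      ext i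
      simp only [hXB, hY, Finset.mem_union, Finset.mem_inter, hB, hSdef, Bg, Sm, Finset.mem_filter, Finset.mem_univ,
        true_and]
      constructor
      · intro hi
        rcases le_or_gt (1 / 2) (c i) with h | h
        · exact Or.inl ⟨hi, h⟩
        · exact Or.inr ⟨hi, h⟩
      · rintro (h | h) <;> exact h.1
    have e2 : Disjoint XB Y :=
      (disj_Sm_Bg c).symm.mono Finset.inter_subset_right Finset.inter_subset_right
    have := Finset.card_union_of_disjoint e2
    rw [← e1] at this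
    exact_mod_cast this
  rcases Finset.eq_empty_or_nonempty Y with hYe | hYn
  · rw [hXcard, hsplit, hYe]
    have : 0 ≤ ∑ b ∈ B \ X, F b := Finset.sum_nonneg fun b _ => hFnn b
    have h3 := mul_nonneg hm0 hF1nn
    simp only [Finset.card_empty, Nat.cast_zero, add_zero]
    linarith
  have hx : (0 : ℝ) < Y.card := by exact_mod_cast hYn.card_pos
  have hTB0 : 0 ≤ ∑ b ∈ B \ X, F b := Finset.sum_nonneg fun b _ => hFnn b
  have hγ : 2 * ∑ i ∈ Y, c i ≤ Y.card := by
    have h3 : ∑ i ∈ Y, c i ≤ ∑ i ∈ Y, (1 / 2 : ℝ) :=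
      Finset.sum_le_sum fun i hi => (hSc i (Finset.mem_inter.1 hi).2).le
    rw [Finset.sum_const, nsmul_eq_mul] at h3
    linarith
  have hcardB : (B.card : ℝ) = (B \ X).card + XB.card := by
    have e1 : B \ XB = B \ X := by
      ext i
      simp only [hXB, Finset.mem_sdiff, Finset.mem_inter]
      tauto
    have := Finset.card_sdiff_add_card_eq_card (Finset.inter_subset_right : XB ⊆ B)
    rw [e1] at this
    exact_mod_cast this.symm
  -- the sum of the leftover budgets
  have hSplitS : ∑ i ∈ S, c i = ∑ i ∈ S \ X, c i + ∑ i ∈ Y, c i := by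
    rw [← Finset.sum_sdiff (Finset.inter_subset_right : Y ⊆ S)]
    have e1 : S \ Y = S \ X := by
      ext i
      simp only [hY, Finset.mem_sdiff, Finset.mem_inter]
      tauto
    rw [e1]
  have hSβ : (B.card : ℝ) - p + (∑ i ∈ S \ X, c i + ∑ i ∈ Y, c i) - XB.card / 2 ≤ ∑ b ∈ B \ X, (1 - c b) := by
    have e1 : ∑ b ∈ B, c b = ∑ b ∈ B \ X, c b + ∑ b ∈ XB, c b := by
      rw [← Finset.sum_sdiff (Finset.inter_subset_right : XB ⊆ B)]
      have e1 : B \ XB = B \ X := by
        ext i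
        simp only [hXB, Finset.mem_sdiff, Finset.mem_inter]
        tauto
      rw [e1]
    have e2 : (XB.card : ℝ) / 2 ≤ ∑ b ∈ XB, c b := by
      have h3 : ∑ b ∈ XB, (1 / 2 : ℝ) ≤ ∑ b ∈ XB, c b :=
        Finset.sum_le_sum fun b hb => hBc b (Finset.mem_inter.1 hb).2
      rw [Finset.sum_const, nsmul_eq_mul] at h3
      linarith
    rw [Finset.sum_sub_distrib]
    simp only [Finset.sum_const, nsmul_eq_mul, mul_one]
    rw [hSplitS] at hCsplit
    linarith
  have hxp : (XB.card : ℝ) + Y.card ≤ p := by rw [← hXcard]; exact hX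
  have hh : (0 : ℝ) ≤ XB.card := by positivity
  have hgoal : (Y.card : ℝ) ≤ ∑ b ∈ B \ X, F b + (2 * p - B.card) * F1 := by
    have hC'0 : 0 ≤ ∑ i ∈ S \ X, c i := Finset.sum_nonneg fun i _ => (h0 i).le
    rcases hC'0.eq_or_lt with hC' | hC'
    · -- all small items are in `X`
      have hSX : S ⊆ X := by
        intro i hi
        by_contra hiX
        have h3 : c i ≤ ∑ i ∈ S \ X, c i :=
          Finset.single_le_sum (f := c) (fun j _ => (h0 j).le) (Finset.mem_sdiff.2 ⟨hi, hiX⟩)
        linarith [h0 i]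
      have hYS : Y = S := Finset.inter_eq_right.2 hSX
      obtain ⟨r, hr⟩ : ∃ r, S.card = r + 1 := by
        rw [hYS] at hYn
        exact ⟨S.card - 1, by have := hYn.card_pos; omega⟩
      have hval : ∀ (β : ℝ) (Z : Finset ι), Disjoint X Z →
          (Y.card : ℝ) * ex c (hit X) S.card S β Z = ∑ j ∈ Y, (if c j < β then 1 else 0) := by
        intro β Z hXZ
        rw [hYS]
        conv_lhs => rw [show ex c (hit X) S.card S β Z = ex c (hit X) (r + 1) S β Z by rw [hr]]
        exact ex_all c X r S β Z hr hSX hXZ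
      have hF1v : F1 = 1 := by
        have h3 := hval 1 ∅ (Finset.disjoint_empty_right X)
        have h4 : ∑ j ∈ Y, (if c j < 1 then (1 : ℝ) else 0) = Y.card := by
          rw [Finset.sum_congr rfl fun j _ => if_pos (h1 j)]
          simp
        rw [h4] at h3
        have h5 : (Y.card : ℝ) * F1 = Y.card * 1 := by rw [mul_one]; exact h3
        exact mul_left_cancel₀ hx.ne' h5
      rw [hF1v, mul_one]
      refine num0 hx rfl hxp hγ ?_ ?_ hTB0 hh (γ := ∑ i ∈ Y, c i) (Sβ := ∑ b ∈ B \ X, (1 - c b))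
      · rw [← hC'] at hSβ
        linarith
      · have h3 : ∀ b ∈ B \ X, 2 * ((Y.card : ℝ) * (1 - c b) - ∑ i ∈ Y, c i) ≤ Y.card * F b := by
          intro b hb
          have hbX : Disjoint X {b} := by
            rw [Finset.disjoint_singleton_right]
            exact (Finset.mem_sdiff.1 hb).2
          simp only [hF]
          rw [hval _ _ hbX]
          have h4 : ∀ j ∈ Y, 2 * ((1 - c b) - c j) ≤ (if c j < 1 - c b then (1 : ℝ) else 0) := by
            intro j _
            split_ifs with h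
            · linarith [hBc b (Finset.mem_sdiff.1 hb).1, h0 j]
            · linarith
          have h5 := Finset.sum_le_sum h4
          rw [← Finset.mul_sum, Finset.sum_sub_distrib] at h5
          simp only [Finset.sum_const, nsmul_eq_mul] at h5
          exact h5
        have h4 := Finset.sum_le_sum h3
        rw [← Finset.mul_sum, ← Finset.mul_sum, Finset.sum_sub_distrib, ← Finset.mul_sum] at h4
        simp only [Finset.sum_const, nsmul_eq_mul] at h4
        rw [hcardB]
        simp only [add_sub_cancel_right]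
        exact h4
    · set ω := (Y.card : ℝ) / (2 * ∑ i ∈ S \ X, c i) with hω
      have hω0 : 0 < ω := by positivity
      have hCω : (Y.card : ℝ) = 2 * (∑ i ∈ S \ X, c i) * ω := by
        rw [hω]
        field_simp
      have hb := fun β Z => hit_bounds c (fun i => (h0 i).le) X S hSc ω hω0 hYn hCω.ge β Z
      refine num hx hω0 rfl hm0 hxp hγ hCω hSβ ?_ hTB0 (hb 1 ∅ (Finset.disjoint_empty_right X)).2 hh
      have h3 : ∀ b ∈ B \ X, (2 * ω / (1 + ω)) * ((Y.card : ℝ) * (1 - c b) - ∑ i ∈ Y, c i) ≤ Y.card * F b := by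
        intro b hb'
        have hbX : Disjoint X {b} := by
          rw [Finset.disjoint_singleton_right]
          exact (Finset.mem_sdiff.1 hb').2
        exact (hb (1 - c b) {b} hbX).1 (by linarith [h1 b]) (by linarith [hBc b (Finset.mem_sdiff.1 hb').1])
      have h4 := Finset.sum_le_sum h3
      rw [← Finset.mul_sum, ← Finset.mul_sum, Finset.sum_sub_distrib, ← Finset.mul_sum] at h4
      simp only [Finset.sum_const, nsmul_eq_mul] at h4
      rw [hcardB]
      simp only [add_sub_cancel_right]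
      exact h4
  rw [hXcard, hsplit]
  linarith

/-- Lemma K: if the sets `Z` of total cost less than `1` meet the random set in measure at most `1`, then the sum of the sizes
is at most `2 p`. -/
theorem lemmaK_real (c : ι → ℝ) (h0 : ∀ i, 0 < c i) (h1 : ∀ i, c i < 1) (p : ℝ) (hC : ∑ i, c i ≤ p)
    (w : Finset ι → ℝ) (hw : ∀ X, 0 ≤ w X) (hwp : ∀ X, w X ≠ 0 → (X.card : ℝ) ≤ p)
    (hZ : ∀ Z : Finset ι, ∑ i ∈ Z, c i < 1 → ∑ X, w X * hit X Z ≤ 1) : ∑ X, w X * X.card ≤ 2 * p := by
  have hcov : ∀ X ∈ (Finset.univ : Finset (Finset ι)), w X * X.card ≤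
      w X * (∑ b ∈ Bg c, ex c (hit X) (Sm c).card (Sm c) (1 - c b) {b} +
        (2 * p - (Bg c).card) * ex c (hit X) (Sm c).card (Sm c) 1 ∅) := by
    intro X _
    by_cases h : w X = 0
    · simp [h]
    · exact mul_le_mul_of_nonneg_left (cover c h0 h1 p hC X (hwp X h)) (hw X)
  have hm0 : 0 ≤ 2 * p - ((Bg c).card : ℝ) := by
    have h2 : ∑ b ∈ Bg c, (1 / 2 : ℝ) ≤ ∑ b ∈ Bg c, c b := Finset.sum_le_sum fun b hb => (Finset.mem_filter.1 hb).2
    rw [Finset.sum_const, nsmul_eq_mul] at h2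
    have h3 := sum_split c c
    have h4 : 0 ≤ ∑ i ∈ Sm c, c i := Finset.sum_nonneg fun i _ => (h0 i).le
    linarith
  refine (Finset.sum_le_sum hcov).trans ?_
  have e1 : ∀ (β : ℝ) (Z : Finset ι), ∑ X, w X * ex c (hit X) (Sm c).card (Sm c) β Z =
      ex c (fun Z => ∑ X, w X * hit X Z) (Sm c).card (Sm c) β Z := fun β Z =>
    (ex_sum c Finset.univ w hit _ _ _ _).symm
  have e2 : ∑ X, w X * (∑ b ∈ Bg c, ex c (hit X) (Sm c).card (Sm c) (1 - c b) {b} +
        (2 * p - (Bg c).card) * ex c (hit X) (Sm c).card (Sm c) 1 ∅) =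
      ∑ b ∈ Bg c, ex c (fun Z => ∑ X, w X * hit X Z) (Sm c).card (Sm c) (1 - c b) {b} +
        (2 * p - (Bg c).card) * ex c (fun Z => ∑ X, w X * hit X Z) (Sm c).card (Sm c) 1 ∅ := by
    simp only [mul_add, Finset.sum_add_distrib, Finset.mul_sum]
    rw [Finset.sum_comm]
    congr 1
    · exact Finset.sum_congr rfl fun b _ => e1 _ _
    · rw [← e1, Finset.mul_sum]
      exact Finset.sum_congr rfl fun X _ => by ring
  rw [e2]
  have h3 : ∀ b ∈ Bg c, ex c (fun Z => ∑ X, w X * hit X Z) (Sm c).card (Sm c) (1 - c b) {b} ≤ 1 := by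
    intro b hb
    refine ex_le c _ hZ _ _ _ _ rfl ?_ ?_ ?_
    · rw [Finset.disjoint_singleton_right]
      intro hb'
      exact Finset.disjoint_left.1 (disj_Sm_Bg c) hb' hb
    · rw [Finset.sum_singleton]; exact h1 b
    · rw [Finset.sum_singleton]; linarith
  have h4 : ex c (fun Z => ∑ X, w X * hit X Z) (Sm c).card (Sm c) 1 ∅ ≤ 1 := by
    refine ex_le c _ hZ _ _ _ _ rfl (Finset.disjoint_empty_right _) ?_ ?_ <;> simp
  have h5 := Finset.sum_le_sum h3
  rw [Finset.sum_const, nsmul_eq_mul, mul_one] at h5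
  have h6 := mul_le_mul_of_nonneg_left h4 hm0
  linarith

/-- Lemma K with integral costs. -/
theorem lemmaK (p s : ℕ) (k : ι → ℕ) (hk1 : ∀ i, 1 ≤ k i) (hks : ∀ i, k i ≤ s) (hK : ∑ i, k i ≤ p * (s + 1))
    (w : Finset ι → ℝ) (hw : ∀ X, 0 ≤ w X) (hwp : ∀ X, w X ≠ 0 → X.card ≤ p)
    (hZ : ∀ Z : Finset ι, ∑ i ∈ Z, k i ≤ s → ∑ X ∈ Finset.univ.filter (fun X => ¬ Disjoint X Z), w X ≤ 1) :
    ∑ X, w X * X.card ≤ 2 * p := by
  have hs : (0 : ℝ) < (s : ℝ) + 1 := by positivity
  refine lemmaK_real (fun i => (k i : ℝ) / (s + 1)) ?_ ?_ p ?_ w hw ?_ ?_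
  · intro i
    have : (0 : ℝ) < k i := by exact_mod_cast hk1 i
    positivity
  · intro i
    rw [div_lt_one hs]
    have : (k i : ℝ) ≤ s := by exact_mod_cast hks i
    linarith
  · rw [← Finset.sum_div, div_le_iff₀ hs]
    exact_mod_cast hK
  · intro X hX
    exact_mod_cast hwp X hX
  · intro Z h
    rw [← Finset.sum_div, div_lt_one hs] at h
    have h2 : ∑ i ∈ Z, k i ≤ s := by
      have : ((∑ i ∈ Z, k i : ℕ) : ℝ) < s + 1 := by push_cast; exact h
      have : ∑ i ∈ Z, k i < s + 1 := by exact_mod_cast this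
      omega
    refine le_trans (le_of_eq ?_) (hZ Z h2)
    rw [Finset.sum_filter]
    refine Finset.sum_congr rfl fun X _ => ?_
    unfold hit
    by_cases hd : Disjoint X Z <;> simp [hd]

end main

end Pool.Agent.Helper1.LK
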